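import Mathlib
import Pool.Agent.R312.V

/-!
# Integrality of the normalised (15k+4) sums with ratio -27

A WZ pair gives
`∑_{j<n} (-27)^(n-1-j) (15j+4) C(2j,j)² C(3j,j) = n C(2n,n) ∑_{k<n} (-1)^k C(2m,m) C(3n-1,n+k)`,
`m = n-1-k`.  Modulo powers of `3` dividing `2n+1` the summands cancel in pairs and only the
summand with `k = 0` remains.
-/

set_option autoImplicit false

namespace Pool.Agent.Results.MP_ccf7f2_nt.Integrality

open Finset Nat Pool.Agent.R312.WZ Pool.Agent.R312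

/-- right-hand summand -/
noncomputable def T (n k : ℕ) : ℚ :=
  if k < n then (-1) ^ k * ((2 * n)! : ℚ) * ((3 * n)! : ℚ) * ((2 * (n - k - 1))! : ℚ) /
    (3 * (n ! : ℚ) ^ 2 * ((n - k - 1)! : ℚ) ^ 2 * ((n + k)! : ℚ) * ((2 * n - k - 1)! : ℚ))
  else 0

/-- telescoping function -/
noncomputable def Φ (n k : ℕ) : ℚ :=
  if k ≤ n then (-1) ^ k * ((2 * n)! : ℚ) * ((3 * n)! : ℚ) * ((2 * (n - k))! : ℚ) *
    ((15 * (n : ℚ) + 4) * (2 * n + 1) - 5 * (3 * n + 1) * k + 3 * k ^ 2) /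
    ((n ! : ℚ) ^ 2 * ((n - k)! : ℚ) ^ 2 * ((n + k)! : ℚ) * ((2 * n + 1 - k)! : ℚ))
  else 0

theorem wz (n k : ℕ) (hk : k ≤ n) : T (n + 1) k - (-27) * T n k = Φ n k - Φ n (k + 1) := by
  obtain ⟨d, rfl⟩ := Nat.exists_eq_add_of_le hk
  rcases d with _ | e
  · have h1 : T (k + 0 + 1) k = (-1) ^ k * ((2 * k + 2)! : ℚ) * ((3 * k + 3)! : ℚ) /
        (3 * ((k + 1)! : ℚ) ^ 2 * ((2 * k + 1)! : ℚ) * ((k + 1)! : ℚ)) := by
      unfold T
      rw [if_pos (by omega)]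
      rw [show 3 * (k + 0 + 1) = 3 * k + 3 by ring, show 2 * (k + 0 + 1) - k - 1 = k + 1 by omega,
        show 2 * (k + 0 + 1) = 2 * k + 2 by ring,
        show k + 0 + 1 - k - 1 = 0 by omega, show k + 0 + 1 = k + 1 by omega,
        show k + 1 + k = 2 * k + 1 by ring]
      simp
    have h2 : T (k + 0) k = 0 := by unfold T; rw [if_neg (by omega)]
    have h3 : Φ (k + 0) (k + 1) = 0 := by unfold Φ; rw [if_neg (by omega)]
    have h4 : Φ (k + 0) k = (-1) ^ k * ((2 * k)! : ℚ) * ((3 * k)! : ℚ) *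
        (2 * (3 * (k : ℚ) + 1) * (3 * k + 2)) /
        ((k ! : ℚ) ^ 2 * ((2 * k)! : ℚ) * ((k + 1)! : ℚ)) := by
      unfold Φ
      rw [if_pos (by omega)]
      rw [show 3 * (k + 0) = 3 * k by ring, show k + 0 - k = 0 by omega,
        show 2 * (k + 0) + 1 - k = k + 1 by omega, show 2 * (k + 0) = 2 * k by ring,
        show k + 0 + k = 2 * k by ring]
      simp only [add_zero, mul_zero, Nat.factorial_zero, Nat.cast_one]
      ring
    rw [h1, h2, h3, h4, fs3, fs2 (2 * k), fs k, fs (2 * k)]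
    have z1 := fz k
    have z2 := fz (2 * k)
    have z3 := fz (3 * k)
    push_cast
    have z5 : (k : ℚ) + 1 ≠ 0 := by positivity
    have z6 : 2 * (k : ℚ) + 1 ≠ 0 := by positivity
    field_simp
    ring
  · have h1 : T (k + (e + 1) + 1) k = (-1) ^ k * ((2 * (k + e) + 4)! : ℚ) *
        ((3 * (k + e) + 6)! : ℚ) * ((2 * e + 2)! : ℚ) /
        (3 * ((k + e + 2)! : ℚ) ^ 2 * ((e + 1)! : ℚ) ^ 2 * ((2 * k + e + 2)! : ℚ) *
          ((k + 2 * e + 3)! : ℚ)) := by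
      unfold T
      rw [if_pos (by omega)]
      rw [show 3 * (k + (e + 1) + 1) = 3 * (k + e) + 6 by ring,
        show 2 * (k + (e + 1) + 1) - k - 1 = k + 2 * e + 3 by omega,
        show 2 * (k + (e + 1) + 1) = 2 * (k + e) + 4 by ring,
        show k + (e + 1) + 1 - k - 1 = e + 1 by omega,
        show k + (e + 1) + 1 + k = 2 * k + e + 2 by ring,
        show k + (e + 1) + 1 = k + e + 2 by ring, show 2 * (e + 1) = 2 * e + 2 by ring]
    have h2 : T (k + (e + 1)) k = (-1) ^ k * ((2 * (k + e) + 2)! : ℚ) *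
        ((3 * (k + e) + 3)! : ℚ) * ((2 * e)! : ℚ) /
        (3 * ((k + e + 1)! : ℚ) ^ 2 * (e ! : ℚ) ^ 2 * ((2 * k + e + 1)! : ℚ) *
          ((k + 2 * e + 1)! : ℚ)) := by
      unfold T
      rw [if_pos (by omega)]
      rw [show 3 * (k + (e + 1)) = 3 * (k + e) + 3 by ring,
        show 2 * (k + (e + 1)) - k - 1 = k + 2 * e + 1 by omega,
        show 2 * (k + (e + 1)) = 2 * (k + e) + 2 by ring,
        show k + (e + 1) - k - 1 = e by omega,
        show k + (e + 1) + k = 2 * k + e + 1 by ring,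
        show k + (e + 1) = k + e + 1 by ring]
    have h3 : Φ (k + (e + 1)) (k + 1) = (-1) ^ (k + 1) * ((2 * (k + e) + 2)! : ℚ) *
        ((3 * (k + e) + 3)! : ℚ) * ((2 * e)! : ℚ) *
        ((15 * ((k : ℚ) + e + 1) + 4) * (2 * ((k : ℚ) + e + 1) + 1)
          - 5 * (3 * ((k : ℚ) + e + 1) + 1) * (k + 1) + 3 * ((k : ℚ) + 1) ^ 2) /
        (((k + e + 1)! : ℚ) ^ 2 * (e ! : ℚ) ^ 2 * ((2 * k + e + 2)! : ℚ) *
          ((k + 2 * e + 2)! : ℚ)) := by
      unfold Φ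
      rw [if_pos (by omega)]
      rw [show 3 * (k + (e + 1)) = 3 * (k + e) + 3 by ring,
        show 2 * (k + (e + 1)) + 1 - (k + 1) = k + 2 * e + 2 by omega,
        show 2 * (k + (e + 1)) = 2 * (k + e) + 2 by ring,
        show k + (e + 1) - (k + 1) = e by omega,
        show k + (e + 1) + (k + 1) = 2 * k + e + 2 by ring,
        show k + (e + 1) = k + e + 1 by ring]
      push_cast
      ring
    have h4 : Φ (k + (e + 1)) k = (-1) ^ k * ((2 * (k + e) + 2)! : ℚ) *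
        ((3 * (k + e) + 3)! : ℚ) * ((2 * e + 2)! : ℚ) *
        ((15 * ((k : ℚ) + e + 1) + 4) * (2 * ((k : ℚ) + e + 1) + 1)
          - 5 * (3 * ((k : ℚ) + e + 1) + 1) * k + 3 * (k : ℚ) ^ 2) /
        (((k + e + 1)! : ℚ) ^ 2 * ((e + 1)! : ℚ) ^ 2 * ((2 * k + e + 1)! : ℚ) *
          ((k + 2 * e + 3)! : ℚ)) := by
      unfold Φ
      rw [if_pos (by omega)]
      rw [show 3 * (k + (e + 1)) = 3 * (k + e) + 3 by ring,
        show 2 * (k + (e + 1)) + 1 - k = k + 2 * e + 3 by omega,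
        show 2 * (k + (e + 1)) = 2 * (k + e) + 2 by ring,
        show k + (e + 1) - k = e + 1 by omega,
        show k + (e + 1) + k = 2 * k + e + 1 by ring,
        show k + (e + 1) = k + e + 1 by ring, show 2 * (e + 1) = 2 * e + 2 by ring]
      push_cast
      ring
    rw [h1, h2, h3, h4,
      show 3 * (k + e) + 6 = 3 * (k + e) + 3 + 3 by ring, fs3 (3 * (k + e) + 3),
      show 2 * (k + e) + 4 = 2 * (k + e) + 2 + 2 by ring, fs2 (2 * (k + e) + 2),
      fs2 (2 * e), show k + e + 2 = k + e + 1 + 1 by ring, fs (k + e + 1),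
      show 2 * k + e + 2 = 2 * k + e + 1 + 1 by ring, fs (2 * k + e + 1), fs e,
      show k + 2 * e + 3 = k + 2 * e + 1 + 2 by ring, fs2 (k + 2 * e + 1),
      show k + 2 * e + 2 = k + 2 * e + 1 + 1 by ring, fs (k + 2 * e + 1), pow_succ]
    have z1 := fz (3 * (k + e) + 3)
    have z2 := fz (2 * (k + e) + 2)
    have z3 := fz (2 * e)
    have z4 := fz (k + e + 1)
    have z5 := fz (2 * k + e + 1)
    have z6 := fz e
    have z7 := fz (k + 2 * e + 1)
    push_cast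
    generalize (((3 * (k + e) + 3)! : ℕ) : ℚ) = A1 at *
    generalize (((2 * (k + e) + 2)! : ℕ) : ℚ) = A2 at *
    generalize (((2 * e)! : ℕ) : ℚ) = A3 at *
    generalize (((k + e + 1)! : ℕ) : ℚ) = A4 at *
    generalize (((2 * k + e + 1)! : ℕ) : ℚ) = A5 at *
    generalize ((e ! : ℕ) : ℚ) = A6 at *
    generalize (((k + 2 * e + 1)! : ℕ) : ℚ) = A7 at *
    have y1 : (k : ℚ) + e + 1 + 1 ≠ 0 := by positivity
    have y3 : 2 * (k : ℚ) + e + 1 + 1 ≠ 0 := by positivity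
    have y4 : (e : ℚ) + 1 ≠ 0 := by positivity
    have y5 : (k : ℚ) + 2 * e + 1 + 2 ≠ 0 := by positivity
    have y6 : (k : ℚ) + 2 * e + 1 + 1 ≠ 0 := by positivity
    field_simp
    ring

theorem T_diag (n : ℕ) : T n n = 0 := by unfold T; rw [if_neg (by omega)]

theorem Φ_diag (n : ℕ) : Φ n (n + 1) = 0 := by unfold Φ; rw [if_neg (by omega)]

theorem Φ_zero (n : ℕ) : Φ n 0
    = (15 * n + 4) * ((2 * n).choose n : ℚ) ^ 2 * ((3 * n).choose n : ℚ) := by
  unfold Φ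
  rw [if_pos (by omega), cbq, c3q]
  simp only [mul_zero, add_zero, Nat.sub_zero, Nat.cast_zero, pow_zero, one_mul]
  rw [fs (2 * n)]
  have z1 := fz n
  have z2 := fz (2 * n)
  have z3 := fz (3 * n)
  push_cast
  have z6 : 2 * (n : ℚ) + 1 ≠ 0 := by positivity
  field_simp
  ring

theorem T_eq (n k : ℕ) (hk : k < n) :
    T n k = (-1) ^ k * ((n : ℚ) * ((2 * n).choose n : ℚ) * (V.τ n (n - 1 - k) : ℚ)) := by
  unfold T
  rw [if_pos hk, cbq]
  have h := V.τ_fac n (n - 1 - k) (by omega)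
  rw [show n + (n - 1 - k) = 2 * n - k - 1 by omega, show 2 * n - 1 - (n - 1 - k) = n + k by omega,
    show n - 1 - k = n - k - 1 by omega] at h
  have h3 : ((3 * n)! : ℚ) = 3 * n * ((3 * n - 1)! : ℚ) := by
    rw [show 3 * n = 3 * n - 1 + 1 by omega, Nat.factorial_succ,
      show 3 * n - 1 + 1 - 1 = 3 * n - 1 by omega]
    have e : ((3 * n - 1 + 1 : ℕ) : ℚ) = 3 * n := by
      rw [show 3 * n - 1 + 1 = 3 * n by omega]
      push_cast
      rfl
    rw [Nat.cast_mul, e]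
  have h' : ((2 * (n - k - 1))! : ℚ) * ((3 * n - 1)! : ℚ) = (V.τ n (n - k - 1) : ℚ) *
      (((n - k - 1)! : ℚ) * ((n - k - 1)! : ℚ) * (((2 * n - k - 1)! : ℚ) * ((n + k)! : ℚ))) := by
    exact_mod_cast h.symm
  rw [show n - 1 - k = n - k - 1 by omega, h3,
    show (-1 : ℚ) ^ k * ((2 * n)! : ℚ) * (3 * n * ((3 * n - 1)! : ℚ)) * ((2 * (n - k - 1))! : ℚ)
      = (-1) ^ k * ((2 * n)! : ℚ) * (3 * n) *
        (((2 * (n - k - 1))! : ℚ) * ((3 * n - 1)! : ℚ)) by ring, h']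
  have z1 := fz n
  have z2 := fz (n - k - 1)
  have z3 := fz (2 * n - k - 1)
  have z4 := fz (n + k)
  have z5 := fz (2 * n)
  field_simp

/-- the sum in question -/
def S (n : ℕ) : ℤ :=
  ∑ j ∈ range n, (-27) ^ (n - 1 - j) * (15 * (j : ℤ) + 4) * ((2 * j).choose j : ℤ) ^ 2 *
    ((3 * j).choose j : ℤ)

/-- the key representation -/
theorem key (n : ℕ) (hn : 1 ≤ n) :
    S n = ((n * (2 * n).choose n : ℕ) : ℤ) * ((-1) ^ (n - 1) * V.W n) := by
  have h := wz_sum (-27) T Φ wz T_diag Φ_diag n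
  have h1 : ∑ k ∈ range n, T n k
      = (((n * (2 * n).choose n : ℕ) : ℤ) * ((-1) ^ (n - 1) * V.W n) : ℤ) := by
    have h5 : ∑ k ∈ range n, T n k = (n : ℚ) * ((2 * n).choose n : ℚ) *
        ∑ k ∈ range n, (-1) ^ k * (V.τ n (n - 1 - k) : ℚ) := by
      rw [Finset.mul_sum]
      refine Finset.sum_congr rfl fun k hk => ?_
      rw [T_eq n k (Finset.mem_range.mp hk)]
      ring
    have h6 : ∑ k ∈ range n, (-1 : ℚ) ^ k * (V.τ n (n - 1 - k) : ℚ)
        = (-1) ^ (n - 1) * ∑ m ∈ range n, (-1 : ℚ) ^ m * (V.τ n m : ℚ) := by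
      rw [← Finset.sum_range_reflect, Finset.mul_sum]
      refine Finset.sum_congr rfl fun m hm => ?_
      have hm' := Finset.mem_range.mp hm
      rw [show n - 1 - (n - 1 - m) = m by omega, ← mul_assoc]
      congr 1
      rw [show n - 1 = (n - 1 - m) + m by omega, pow_add,
        show n - 1 - m + m - m = n - 1 - m by omega, mul_assoc, ← pow_add, ← two_mul,
        pow_mul, neg_one_sq, one_pow, mul_one]
    rw [h5, h6]
    unfold V.W
    push_cast
    ring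
  have h2 : ∑ j ∈ range n, (-27 : ℚ) ^ (n - 1 - j) * Φ j 0 = (S n : ℚ) := by
    unfold S
    push_cast
    refine Finset.sum_congr rfl fun j _ => ?_
    rw [Φ_zero]
    ring
  rw [h1, h2] at h
  exact_mod_cast h.symm

/-- Q2. For `n ≥ 1`, with `a_n = T_n / (2n (2n+1) C(2n,n))`: if `2n+1` is not `3^m` with `m ≥ 1`
then `a_n` is an integer; if it is, then `3 a_n` is an integer which is not divisible by `3`. -/
theorem result (n : ℕ) (hn : 1 ≤ n) :
    ((∀ m : ℕ, 1 ≤ m → 2 * n + 1 ≠ 3 ^ m) →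
      ∃ z : ℤ, (((∑ j ∈ range n, (-27) ^ (n - 1 - j) * (15 * (j : ℤ) + 4) *
        ((2 * j).choose j : ℤ) ^ 2 * ((3 * j).choose j : ℤ) : ℤ)) : ℚ) /
          (2 * (n : ℚ) * (2 * n + 1) * ((2 * n).choose n : ℚ)) = z) ∧
    ((∃ m : ℕ, 1 ≤ m ∧ 2 * n + 1 = 3 ^ m) →
      ∃ z : ℤ, 3 * ((((∑ j ∈ range n, (-27) ^ (n - 1 - j) * (15 * (j : ℤ) + 4) *
        ((2 * j).choose j : ℤ) ^ 2 * ((3 * j).choose j : ℤ) : ℤ)) : ℚ) /
          (2 * (n : ℚ) * (2 * n + 1) * ((2 * n).choose n : ℚ))) = z ∧ ¬ (3 : ℤ) ∣ z) := by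
  have e1 : (n : ℚ) ≠ 0 := by
    have : n ≠ 0 := by omega
    exact_mod_cast this
  have e2 : (2 * (n : ℚ) + 1) ≠ 0 := by positivity
  have e3 : ((2 * n).choose n : ℚ) ≠ 0 := by
    have : (2 * n).choose n ≠ 0 := (Nat.choose_pos (by omega)).ne'
    exact_mod_cast this
  have h1 : (S n : ℚ) = (n : ℚ) * ((2 * n).choose n : ℚ) * ((-1) ^ (n - 1) * (V.W n : ℚ)) := by
    rw [key n hn]
    push_cast
    ring
  change ((∀ m : ℕ, 1 ≤ m → 2 * n + 1 ≠ 3 ^ m) → ∃ z : ℤ, ((S n : ℤ) : ℚ) / _ = z) ∧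
    ((∃ m : ℕ, 1 ≤ m ∧ 2 * n + 1 = 3 ^ m) → ∃ z : ℤ, 3 * (((S n : ℤ) : ℚ) / _) = z ∧ _)
  constructor
  · intro hm
    obtain ⟨s, hs⟩ := V.W_main n hn hm
    refine ⟨(-1) ^ (n - 1) * s, ?_⟩
    rw [h1, hs]
    push_cast
    field_simp
  · rintro ⟨m, -, hm⟩
    obtain ⟨z, hz, hz3⟩ := V.W_pow n m hn hm
    refine ⟨(-1) ^ (n - 1) * z, ?_, ?_⟩
    · have h2 : (V.W n : ℚ) = (2 * (2 * (n : ℚ) + 1)) * z / 3 := by
        have := congrArg (fun z : ℤ => (z : ℚ)) hz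
        push_cast at this
        linarith
      rw [h1, h2]
      push_cast
      field_simp
    · intro hd
      apply hz3
      rcases neg_one_pow_eq_or ℤ (n - 1) with h8 | h8
      · rw [h8, one_mul] at hd
        exact hd
      · rw [h8, neg_one_mul, dvd_neg] at hd
        exact hd

end Pool.Agent.Results.MP_ccf7f2_nt.Integrality
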